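import Pool.Agent.Helper45.LinK.GoalsK

/-!
# Being a translation on one fibre is being a translation on all fibres

The trace of the linear part is a bounded holomorphic function which attains its maximum modulus.
-/

open Complex Metric Set Filter Topology MeasureTheory
open scoped ContDiff ComplexConjugate ComplexOrder

namespace Pool.Agent.Helper82.LinK

open Pool.Agent.Helper95.Lin Pool.Agent.Helper45.LinK

/-- The trace as a continuous linear functional on the endomorphisms of `ℂᵏ`. -/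
noncomputable def trL (k : ℕ) : CE k →ₗ[ℂ] ℂ :=
  (LinearMap.trace ℂ (Cn k)).comp (ContinuousLinearMap.coeLM ℂ)

lemma trL_apply {k : ℕ} (L : CE k) :
    trL k L = LinearMap.trace ℂ (Cn k) (L : Cn k →ₗ[ℂ] Cn k) := rfl

lemma pow_act {b k : ℕ} {D : Set (Cn b)} {Γ : Type} [Group Γ] {g : Γ → Cn b → Cn b}
    {A : Γ → Cn b → CE k} {β : Γ → Cn b → Cn k} (h : LActK D g A β) {ν : Γ}
    (hν : ∀ y ∈ D, g ν y = y) (n : ℕ) :
    ∀ y ∈ D, g (ν ^ n) y = y ∧ A (ν ^ n) y = (A ν y) ^ n := by
  induction n with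
  | zero =>
    intro y hy
    rw [pow_zero, pow_zero]
    exact ⟨h.base.act.one y hy, h.a_one y hy⟩
  | succ n ih =>
    intro y hy
    rw [pow_succ, pow_succ]
    refine ⟨?_, ?_⟩
    · rw [h.base.act.mul _ _ y hy, hν y hy]
      exact (ih y hy).1
    · rw [h.a_mul _ _ y hy, hν y hy, (ih y hy).2]

/-- Packet TRK. -/
theorem trk (hU : S_UNI1) (hP : S_UNIP) : S_TRK := by
  intro b k D Γ _ g A β h ν hν z₀ hz₀ h0 z hz
  have hpow : ∀ z ∈ D, ∃ C : ℝ, ∀ n : ℕ, ‖(A ν z) ^ n‖ ≤ C := by
    intro z hz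
    obtain ⟨C, hC⟩ := hU h z hz
    refine ⟨C, fun n => ?_⟩
    rw [← (pow_act h hν n z hz).2]
    exact hC _ (fun y hy => (pow_act h hν n y hy).1)
  have hb : ∀ z ∈ D, ‖trL k (A ν z)‖ ≤ k ∧ (trL k (A ν z) = k → A ν z = 1) := by
    intro z hz
    obtain ⟨C, hC⟩ := hpow z hz
    exact hP (A ν z) C hC
  have hf0 : trL k (A ν z₀) = k := by
    rw [h0, trL_apply]
    have : ((1 : CE k) : Cn k →ₗ[ℂ] Cn k) = 1 := rfl
    rw [this, LinearMap.trace_one]
    simp
  have hd : DifferentiableOn ℂ (fun z => trL k (A ν z)) D := by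
    have hc : DifferentiableOn ℂ (fun z => (LinearMap.toContinuousLinearMap (trL k)) (A ν z)) D :=
      (LinearMap.toContinuousLinearMap (trL k)).differentiable.comp_differentiableOn (h.a_holo ν)
    exact hc
  have hmax : IsMaxOn (norm ∘ fun z => trL k (A ν z)) D z₀ := by
    intro x hx
    simp only [Function.comp_apply, mem_ofPred_eq]
    rw [hf0]
    simpa using (hb x hx).1
  have heq := Complex.eqOn_of_isPreconnected_of_isMaxOn_norm h.base.dom.conn.isPreconnected
    h.base.dom.isOpen hd hz₀ hmax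
  have := heq hz
  simp only [Function.const_apply] at this
  exact (hb z hz).2 (this.trans hf0)

end Pool.Agent.Helper82.LinK
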